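import Pool.Agent.HP25.OS.G

set_option autoImplicit false

/-! One random shift with small additive energy, arbitrary coefficients. -/

namespace Pool.Agent.HP27.EN
open Finset
open Pool.Agent.H807R2.Dav
open Pool.Agent.H373R2.T7
open Pool.Agent.W93.DG
open Pool.Agent.TH872.Sq
open Pool.Agent.HP25.OS (dual logs)

variable {ι : Type}

/-- The random integer `φ` (with the probabilities `p`) has an almost minimal moment of order `2 q` at the scale `Y`. -/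
structure Em (q k W F Y : ℕ) (s : Finset ι) (p : ι → ℝ) (φ : ι → ℤ) : Prop where
  nonneg : ∀ i ∈ s, 0 ≤ p i
  sum : ∑ i ∈ s, p i = 1
  size : ∀ i ∈ s, |φ i| ≤ ((F * Y : ℕ) : ℤ)
  mom : ∀ M : ℕ, 2 * q * (F * Y) < M →
    (∑ t ∈ range M, ‖∑ i ∈ s, ((p i : ℝ) : ℂ) * ee ((t : ℝ) * ((φ i : ℝ) / M))‖ ^ (2 * q)) * Y ≤ M * (k : ℝ) ^ W

/-- **One shift, arbitrary coefficients.** -/
theorem one_gen (q : ℕ) (hq : 1 ≤ q) (F F₀ W T U : ℕ) : ∃ U0 K₀ : ℕ, ∀ k : ℕ, K₀ ≤ k → ∀ Y : ℕ,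
    1 ≤ Y → ∀ (s : Finset ι) (p : ι → ℝ) (φ : ι → ℤ), Em q k W F Y s p φ →
    ∀ σ : ℤ, (σ = 1 ∨ σ = -1) → ∀ X : ℕ, X ≤ F₀ * Y →
    ∀ f : ℕ → ℝ, ∑ n ∈ Icc 1 ((F + F₀ + 1) * Y), f n ^ 2 ≤ (((F + F₀ + 1) * Y : ℕ) : ℝ) * (k : ℝ) ^ T →
    (∀ α : ℝ, ‖∑ n ∈ Icc 1 ((F + F₀ + 1) * Y), ((f n : ℝ) : ℂ) * ee ((n : ℝ) * α)‖ ≤
      (((F + F₀ + 1) * Y : ℕ) : ℝ) / (k : ℝ) ^ U0) →
    ∀ G : ι → ℝ, (∀ i ∈ s, |G i| ≤ 1) →
    ∑ c ∈ Icc 1 X, |∑ i ∈ s, p i * (G i * cut f ((F + F₀ + 1) * Y) (φ i + σ * (c : ℤ)))| ≤ (Y : ℝ) / (k : ℝ) ^ U := by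
  classical
  obtain ⟨F₁, hF₁⟩ : ∃ F₁ : ℕ, F₁ = F + F₀ + 1 := ⟨_, rfl⟩
  obtain ⟨F', hF'⟩ : ∃ F' : ℕ, F' = 2 * q * (F + F₁) + 1 := ⟨_, rfl⟩
  obtain ⟨V, hV⟩ : ∃ V : ℕ, V = U + T + 1 := ⟨_, rfl⟩
  obtain ⟨C, hC⟩ : ∃ C : ℝ, C = F' := ⟨_, rfl⟩
  have hC0 : 0 ≤ C := by rw [hC]; positivity
  obtain ⟨K2, hK2⟩ := exists_nat_ge ((F₀ : ℝ) * F₁ * (1 + C))
  rw [← hF₁]
  refine ⟨q * V + U + W + 1, K2 + 1, fun k hk Y hY1 s p φ hE σ hσ X hX f hf2 hfs G hG => ?_⟩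
  have hk1' : 1 ≤ k := by omega
  obtain ⟨N, hN⟩ : ∃ N, N = F₁ * Y := ⟨_, rfl⟩
  rw [← hN] at hf2 hfs ⊢
  obtain ⟨R, hR⟩ : ∃ R, R = (F + F₁) * Y := ⟨_, rfl⟩
  obtain ⟨M, hM⟩ : ∃ M, M = 2 * q * R + 1 := ⟨_, rfl⟩
  have hNR : N ≤ R := by rw [hN, hR]; exact Nat.mul_le_mul_right _ (by omega)
  have h2R : 2 * R < M := by
    rw [hM]
    have : 2 * R ≤ 2 * q * R := Nat.mul_le_mul_right _ (by omega)
    omega
  have hNM : N ≤ M := by omega
  have hMF : M ≤ F' * Y := by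
    rw [hM, hR, hF']
    nlinarith
  have hkr : (0 : ℝ) < k := by exact_mod_cast (by omega : 0 < k)
  have hk1 : (1 : ℝ) ≤ k := by exact_mod_cast (by omega : 1 ≤ k)
  have hsz := hE.size
  have hFR : ∀ i ∈ s, |φ i| + N ≤ R := by
    intro i hi
    have h1 := hsz i hi
    rw [hR, hN]
    push_cast at h1 ⊢
    linarith
  have hS : ∀ t ∈ range M, ‖FF f N M t‖ ≤ (N : ℝ) / (k : ℝ) ^ (q * V + U + W + 1) := fun t _ => hfs _
  have hY0 : (0 : ℝ) < Y := by exact_mod_cast hY1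
  have hN0 : (0 : ℝ) < N := by
    have : 0 < N := by rw [hN]; exact Nat.mul_pos (by omega) (by omega)
    exact_mod_cast this
  have hM0 : (0 : ℝ) < M := by exact_mod_cast (by omega : 0 < M)
  have hNMr : (N : ℝ) ≤ M := by exact_mod_cast hNM
  have hNr : (N : ℝ) = F₁ * Y := by rw [hN]; push_cast; ring
  have hmom' : ∑ t ∈ range M, ‖∑ i ∈ s, ((p i : ℝ) : ℂ) * ee ((t : ℝ) * ((φ i : ℝ) / M))‖ ^ (2 * q) ≤ C * (k : ℝ) ^ W := by
    have h1 := hE.mom M (by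
      rw [hM, hR]
      have : 2 * q * (F * Y) ≤ 2 * q * ((F + F₁) * Y) := Nat.mul_le_mul_left _ (Nat.mul_le_mul_right _ (by omega))
      omega)
    have h2 : (M : ℝ) ≤ F' * Y := by exact_mod_cast hMF
    have h3 : M * (k : ℝ) ^ W ≤ (C * (k : ℝ) ^ W) * Y := by
      rw [hC]
      calc M * (k : ℝ) ^ W ≤ (F' * Y) * (k : ℝ) ^ W := by
            apply mul_le_mul_of_nonneg_right h2 (by positivity)
        _ = _ := by ring
    exact le_of_mul_le_mul_right (h1.trans h3) hY0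
  have key := second_le s (fun i => p i) (fun i => p i * G i) (by
      intro i hi
      rw [abs_mul, abs_of_nonneg (hE.nonneg i hi)]
      calc p i * |G i| ≤ p i * 1 := mul_le_mul_of_nonneg_left (hG i hi) (hE.nonneg i hi)
        _ = _ := mul_one _)
    φ f N M R (by omega) hNM hFR h2R q (C * (k : ℝ) ^ W) hmom' _ hS hE.sum.le (1 / (k : ℝ) ^ V) (by positivity)
  -- the second moment
  have h2 : ∑ c ∈ Icc (-(R : ℤ)) R, (∑ i ∈ s, p i * G i * cut f N (φ i + c)) ^ 2 ≤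
      N * (1 + C) / (k : ℝ) ^ (2 * U + 2) := by
    have e1 : M * ∑ c ∈ Icc (-(R : ℤ)) R, (∑ i ∈ s, p i * G i * cut f N (φ i + c)) ^ 2 ≤
        M * (N * (1 + C) / (k : ℝ) ^ (2 * U + 2)) := by
      refine key.trans ?_
      have a1 : (1 / (k : ℝ) ^ V) ^ 2 * (M * ∑ n ∈ Icc 1 N, f n ^ 2) ≤ M * (N * 1 / (k : ℝ) ^ (2 * U + 2)) := by
        calc (1 / (k : ℝ) ^ V) ^ 2 * (M * ∑ n ∈ Icc 1 N, f n ^ 2) ≤ (1 / (k : ℝ) ^ V) ^ 2 * (M * (N * (k : ℝ) ^ T)) := by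
              apply mul_le_mul_of_nonneg_left _ (by positivity)
              exact mul_le_mul_of_nonneg_left hf2 hM0.le
          _ = M * (N * ((k : ℝ) ^ T / (k : ℝ) ^ (2 * V))) := by
              rw [div_pow, one_pow, ← pow_mul, mul_comm V 2]
              field_simp
          _ ≤ M * (N * (1 / (k : ℝ) ^ (2 * U + 2))) := by
              apply mul_le_mul_of_nonneg_left _ hM0.le
              apply mul_le_mul_of_nonneg_left _ hN0.le
              rw [div_le_div_iff₀ (by positivity) (by positivity), one_mul, ← pow_add]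
              exact pow_le_pow_right₀ hk1 (by omega)
          _ = _ := by ring
      have a2 : C * (k : ℝ) ^ W / (1 / (k : ℝ) ^ V) ^ (2 * q) * ((N : ℝ) / (k : ℝ) ^ (q * V + U + W + 1)) ^ 2 ≤
          M * (N * C / (k : ℝ) ^ (2 * U + 2)) := by
        calc C * (k : ℝ) ^ W / (1 / (k : ℝ) ^ V) ^ (2 * q) * ((N : ℝ) / (k : ℝ) ^ (q * V + U + W + 1)) ^ 2 =
            C * (N * N) * ((k : ℝ) ^ (W + V * (2 * q)) / (k : ℝ) ^ ((q * V + U + W + 1) * 2)) := by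
              rw [div_pow, div_pow, one_pow, ← pow_mul, ← pow_mul, pow_add]
              field_simp
          _ ≤ C * (N * N) * (1 / (k : ℝ) ^ (2 * U + 2)) := by
              apply mul_le_mul_of_nonneg_left _ (by positivity)
              rw [div_le_div_iff₀ (by positivity) (by positivity), one_mul, ← pow_add]
              exact pow_le_pow_right₀ hk1 (by ring_nf; omega)
          _ ≤ C * (M * N) * (1 / (k : ℝ) ^ (2 * U + 2)) := by
              apply mul_le_mul_of_nonneg_right _ (by positivity)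
              apply mul_le_mul_of_nonneg_left _ hC0
              exact mul_le_mul_of_nonneg_right hNMr hN0.le
          _ = _ := by ring
      calc _ ≤ M * (N * 1 / (k : ℝ) ^ (2 * U + 2)) + M * (N * C / (k : ℝ) ^ (2 * U + 2)) := add_le_add a1 a2
        _ = _ := by ring
    exact le_of_mul_le_mul_left e1 hM0
  -- Cauchy
  obtain ⟨τ, hτ⟩ : ∃ τ : ℕ → ℝ, ∀ c, τ c = |∑ i ∈ s, p i * (G i * cut f N (φ i + σ * (c : ℤ)))| := ⟨_, fun _ => rfl⟩
  simp only [← hτ]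
  have h3 : (∑ c ∈ Icc 1 X, τ c) ^ 2 ≤ X * ∑ c ∈ Icc 1 X, τ c ^ 2 := by
    have h4 := sq_sum_le_card_mul_sum_sq (s := Icc 1 X) (f := τ)
    rwa [Nat.card_Icc, Nat.add_sub_cancel] at h4
  have h4 : ∑ c ∈ Icc 1 X, τ c ^ 2 ≤ ∑ c ∈ Icc (-(R : ℤ)) R, (∑ i ∈ s, p i * G i * cut f N (φ i + c)) ^ 2 := by
    obtain ⟨g', hg'⟩ : ∃ g' : ℤ → ℝ, ∀ c, g' c = (∑ i ∈ s, p i * G i * cut f N (φ i + c)) ^ 2 := ⟨_, fun _ => rfl⟩
    have e1 : ∀ c ∈ Icc 1 X, τ c ^ 2 = g' (σ * (c : ℤ)) := by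
      intro c _
      rw [hτ, hg', sq_abs]
      congr 1
      apply sum_congr rfl
      intro n _
      ring
    rw [sum_congr rfl e1]
    simp only [← hg']
    rw [← sum_image (f := g') (g := fun c : ℕ => σ * (c : ℤ)) (by
      intro c _ c' _ h
      rcases hσ with h0 | h0 <;> rw [h0] at h <;> simpa using h)]
    apply sum_le_sum_of_subset_of_nonneg
    · intro c hc
      rw [mem_image] at hc
      obtain ⟨c', hc', rfl⟩ := hc
      rw [mem_Icc] at hc' ⊢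
      have : X ≤ R := by
        rw [hR]
        exact hX.trans (Nat.mul_le_mul_right _ (by omega))
      rcases hσ with h0 | h0 <;> rw [h0] <;> constructor <;> omega
    · intro c _ _
      rw [hg']
      exact sq_nonneg _
  have h5 : (∑ c ∈ Icc 1 X, τ c) ^ 2 ≤ ((Y : ℝ) / (k : ℝ) ^ U) ^ 2 := by
    refine h3.trans ?_
    calc (X : ℝ) * ∑ c ∈ Icc 1 X, τ c ^ 2 ≤ (F₀ * Y) * (N * (1 + C) / (k : ℝ) ^ (2 * U + 2)) := by
          apply mul_le_mul _ (h4.trans h2) (sum_nonneg fun _ _ => sq_nonneg _) (by positivity)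
          exact_mod_cast hX
      _ = Y ^ 2 * ((F₀ * F₁ * (1 + C)) / k ^ 2) / (k : ℝ) ^ (2 * U) := by
          rw [hNr, pow_add (k : ℝ) (2 * U) 2]
          field_simp
      _ ≤ Y ^ 2 * 1 / (k : ℝ) ^ (2 * U) := by
          apply div_le_div_of_nonneg_right _ (by positivity)
          apply mul_le_mul_of_nonneg_left _ (by positivity)
          rw [div_le_one (by positivity)]
          refine hK2.trans ?_
          have : (K2 : ℝ) ≤ k := by exact_mod_cast (by omega : K2 ≤ k)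
          nlinarith
      _ = _ := by rw [div_pow, ← pow_mul, mul_comm 2 U, mul_one]
  exact (pow_le_pow_iff_left₀ (sum_nonneg fun c _ => by rw [hτ]; exact abs_nonneg _) (by positivity) two_ne_zero).1 h5

/-- no value has a large probability -/
lemma atom {q k W F Y : ℕ} {s : Finset ι} {p : ι → ℝ} {φ : ι → ℤ} (h : Em q k W F Y s p φ) (v : ℤ) :
    (∑ i ∈ s.filter (fun i => φ i = v), p i) ^ (2 * q) * Y ≤ (k : ℝ) ^ W := by
  classical
  obtain ⟨M, hM⟩ : ∃ M, M = 2 * q * (F * Y) + 1 := ⟨_, rfl⟩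
  have hM0 : (0 : ℝ) < M := by exact_mod_cast (by omega : 0 < M)
  have h1 := h.mom M (by omega)
  -- the mass of the value `v` is the mass of a smaller law
  have h2 := majorantW_pow q s (fun i => if φ i = v then ((p i : ℝ) : ℂ) else 0) p φ M (by omega) (by
    intro i hi
    split_ifs
    · rw [Complex.norm_real, Real.norm_of_nonneg (h.nonneg i hi)]
    · rw [norm_zero]; exact h.nonneg i hi)
  have h3 : ∀ t : ℕ, ‖∑ i ∈ s, (if φ i = v then ((p i : ℝ) : ℂ) else 0) * ee ((t : ℝ) * ((φ i : ℝ) / M))‖ =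
      ∑ i ∈ s.filter (fun i => φ i = v), p i := by
    intro t
    have e1 : ∑ i ∈ s, (if φ i = v then ((p i : ℝ) : ℂ) else 0) * ee ((t : ℝ) * ((φ i : ℝ) / M)) =
        ((∑ i ∈ s.filter (fun i => φ i = v), p i : ℝ) : ℂ) * ee ((t : ℝ) * ((v : ℝ) / M)) := by
      push_cast
      rw [sum_mul, sum_filter]
      apply sum_congr rfl
      intro i _
      split_ifs with h
      · rw [h]
      · rw [zero_mul]
    rw [e1, norm_mul, norm_ee, mul_one, Complex.norm_real, Real.norm_of_nonneg]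
    exact sum_nonneg fun i hi => h.nonneg i (mem_filter.1 hi).1
  simp only [h3] at h2
  rw [sum_const, card_range, nsmul_eq_mul] at h2
  have hY0 : (0 : ℝ) ≤ Y := Nat.cast_nonneg _
  have h4 := (mul_le_mul_of_nonneg_right h2 hY0).trans h1
  have h5 : M * ((∑ i ∈ s.filter (fun i => φ i = v), p i) ^ (2 * q) * Y) ≤ M * ((k : ℝ) ^ W) := by
    calc _ = (M : ℝ) * (∑ i ∈ s.filter (fun i => φ i = v), p i) ^ (2 * q) * Y := by ring
      _ ≤ _ := h4
  exact le_of_mul_le_mul_left h5 hM0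

end Pool.Agent.HP27.EN
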