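import Pool.Agent.HP27.EN.A

set_option autoImplicit false

/-! One random shift with small additive energy: the von Mangoldt function and its model; nice functions. -/

namespace Pool.Agent.HP27.EN
open Finset
open Pool.Agent.H807R2.Dav
open Pool.Agent.H373R2.T7
open Pool.Agent.W93.DG
open Pool.Agent.TH872.Sq
open Pool.Agent.HP25.OS (dual logs)
open Pool.Agent.W93.LM (Nice)

variable {ι : Type}

/-- **The von Mangoldt function and its model.** -/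
theorem one_vm (q : ℕ) (hq : 1 ≤ q) (F W U : ℕ) : ∃ B : ℕ, ∀ E : ℕ, ∃ K₀ : ℕ,
    ∀ N : ℕ, K₀ ≤ N → ∀ (s : Finset ι) (p : ι → ℝ) (φ : ι → ℤ), Em q (Nat.log 2 N) W F N s p φ →
    ∀ z : ℕ, Real.log N ^ B ≤ z → (z : ℝ) ≤ Real.log N ^ E → ∀ X : ℕ, X ≤ N → ∀ σ : ℤ, (σ = 1 ∨ σ = -1) →
    ∀ G : ι → ℝ, (∀ i ∈ s, |G i| ≤ 1) →
    ∑ c ∈ Icc 1 X, |∑ i ∈ s, p i * (G i * (lamI (φ i + σ * (c : ℤ)) - lamzI z (φ i + σ * (c : ℤ))))| ≤ N / Real.log N ^ U := by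
  obtain ⟨U0, K1, hgen⟩ := one_gen (ι := ι) q hq F 1 W 5 (2 * U + 1)
  obtain ⟨B, hB⟩ := sup_diff (2 * U0)
  refine ⟨2 * B, fun E => ?_⟩
  obtain ⟨N3, hN3⟩ := hB (2 * E)
  obtain ⟨N4, hN4⟩ := Pool.Agent.W93.TD.G_sq (2 * E)
  obtain ⟨F₁, hF₁⟩ : ∃ F₁ : ℕ, F₁ = F + 1 + 1 := ⟨_, rfl⟩
  obtain ⟨K2, hK2⟩ := logs 1 F₁ W le_rfl (by omega) (K1 + 1 + 14)
  rw [← hF₁] at hgen
  refine ⟨K2 + N3 + N4 + 1, fun Y hY s p φ hE z hz1 hz2 X hX σ hσ G hG => ?_⟩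
  obtain ⟨k, hk⟩ : ∃ k, k = Nat.log 2 Y := ⟨_, rfl⟩
  obtain ⟨l1, l2, l3, l4, l5, l6, l7, l8, l9, l10⟩ := hK2 Y (by omega) Y (by omega) (by omega)
  rw [← hk] at l1 l4 l5 l6 l7 l10 hE
  obtain ⟨L, hL⟩ : ∃ L, L = Real.log Y := ⟨_, rfl⟩
  obtain ⟨M, hM⟩ : ∃ M, M = F₁ * Y := ⟨_, rfl⟩
  obtain ⟨L', hL'⟩ : ∃ L', L' = Real.log M := ⟨_, rfl⟩
  rw [← hM] at l3 l6 l7 l8 l9
  rw [← hL'] at l3 l6 l7 l8 l9
  rw [← hL] at l2 l4 l5 l8 l9 hz1 hz2 ⊢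
  have hK1r : (0 : ℝ) ≤ K1 := Nat.cast_nonneg _
  have hk14 : (14 : ℝ) ≤ k := by linarith
  have hk0 : (0 : ℝ) < k := by linarith
  have hkK1 : K1 ≤ k := by
    have : (K1 : ℝ) ≤ k := by linarith
    exact_mod_cast this
  have hYM : Y ≤ M := by rw [hM]; exact Nat.le_mul_of_pos_left _ (by omega)
  have hMr : (0 : ℝ) < M := by exact_mod_cast (by omega : 0 < M)
  have hYr : (0 : ℝ) < Y := by exact_mod_cast (by omega : 0 < Y)
  -- the range of `z`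
  have hz1' : L' ^ B ≤ z := by
    refine le_trans ?_ hz1
    rw [pow_mul]
    exact pow_le_pow_left₀ (by linarith) l8 B
  have hz2' : (z : ℝ) ≤ L' ^ (2 * E) := by
    refine hz2.trans ?_
    rw [pow_mul]
    exact pow_le_pow_left₀ (by linarith) l9 E
  have hz : 1 ≤ z := by
    have h1 : (1 : ℝ) ≤ L' ^ B := one_le_pow₀ l3
    exact_mod_cast h1.trans hz1'
  have hsup := hN3 M (by omega) z (by rw [← hL']; exact hz1') (by rw [← hL']; exact hz2')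
  have hsq := hN4 M (by omega) M le_rfl z hz (by rw [← hL']; exact hz2')
  rw [FF_pars _ M M (by omega) le_rfl, ← hL'] at hsq
  have hsq2 : ∑ n ∈ Icc 1 M, (ArithmeticFunction.vonMangoldt n - lamz z n) ^ 2 ≤ M * (k : ℝ) ^ 5 := by
    refine (le_of_mul_le_mul_left hsq hMr).trans ?_
    calc 14 * M * L' ^ 2 ≤ k * M * (((k : ℝ) ^ 2) ^ 2) := by
          apply mul_le_mul _ (pow_le_pow_left₀ (by linarith) l6 2) (by positivity) (by positivity)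
          exact mul_le_mul_of_nonneg_right hk14 hMr.le
      _ = M * (k : ℝ) ^ 5 := by ring
  have hgen' := hgen k hkK1 Y (by omega) s p φ hE σ hσ X (by omega) (fun n => ArithmeticFunction.vonMangoldt n - lamz z n)
  rw [← hM] at hgen'
  have hmain := hgen' hsq2 (by
      intro α
      refine (hsup α).trans ?_
      apply div_le_div_of_nonneg_left hMr.le (by positivity)
      rw [← hL', pow_mul]
      exact pow_le_pow_left₀ hk0.le l7 U0) G hG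
  have hfin : (Y : ℝ) / (k : ℝ) ^ (2 * U + 1) ≤ Y / L ^ U := by
    apply div_le_div_of_nonneg_left hYr.le (by positivity)
    calc L ^ U ≤ (k : ℝ) ^ (2 * U) := by
          rw [pow_mul]
          exact pow_le_pow_left₀ (by linarith) l4 U
      _ ≤ (k : ℝ) ^ (2 * U + 1) := pow_le_pow_right₀ (by linarith) (by omega)
  refine le_trans (le_of_eq ?_) (hmain.trans hfin)
  apply sum_congr rfl
  intro c hc
  congr 1
  apply sum_congr rfl
  intro i hi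
  congr 2
  rw [mem_Icc] at hc
  have hx : φ i + σ * (c : ℤ) ≤ M := by
    have h1 := (abs_le.1 (hE.size i hi)).2
    have h2 : ((c : ℕ) : ℤ) ≤ (Y : ℤ) := by exact_mod_cast hc.2.trans hX
    have h3 : σ * (c : ℤ) ≤ c := by rcases hσ with h | h <;> rw [h] <;> omega
    rw [hM, hF₁]
    push_cast at h1 h2 ⊢
    have : (0 : ℤ) ≤ (Y : ℤ) := Int.natCast_nonneg _
    linarith
  unfold lamI lamzI cut
  by_cases h5 : 1 ≤ φ i + σ * (c : ℤ)
  · rw [if_pos h5, if_pos h5, if_pos ⟨h5, hx⟩]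
  · rw [if_neg h5, if_neg h5, if_neg (fun h => h5 h.1), sub_zero]

/-- **Nice functions.** -/
theorem one_nice (q : ℕ) (hq : 1 ≤ q) (f : ℕ → ℝ) (hf : Nice (fun n => ((f n : ℝ) : ℂ)))
    (F W U : ℕ) : ∃ K₀ : ℕ,
    ∀ N : ℕ, K₀ ≤ N → ∀ (s : Finset ι) (p : ι → ℝ) (φ : ι → ℤ), Em q (Nat.log 2 N) W F N s p φ →
    ∀ X : ℕ, X ≤ N → ∀ σ : ℤ, (σ = 1 ∨ σ = -1) → ∀ G : ι → ℝ, (∀ i ∈ s, |G i| ≤ 1) →
    ∑ c ∈ Icc 1 X, |∑ i ∈ s, p i * (G i * fx f (φ i + σ * (c : ℤ)))| ≤ N / Real.log N ^ U := by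
  obtain ⟨U0, K1, hgen⟩ := one_gen (ι := ι) q hq F 1 W 0 (2 * U + 1)
  obtain ⟨N3, hN3⟩ := hf.2.1 (2 * U0)
  obtain ⟨F₁, hF₁⟩ : ∃ F₁ : ℕ, F₁ = F + 1 + 1 := ⟨_, rfl⟩
  obtain ⟨K2, hK2⟩ := logs 1 F₁ W le_rfl (by omega) (K1 + 1 + 14)
  rw [← hF₁] at hgen
  refine ⟨K2 + N3 + 1, fun Y hY s p φ hE X hX σ hσ G hG => ?_⟩
  obtain ⟨k, hk⟩ : ∃ k, k = Nat.log 2 Y := ⟨_, rfl⟩
  obtain ⟨l1, l2, l3, l4, l5, l6, l7, l8, l9, l10⟩ := hK2 Y (by omega) Y (by omega) (by omega)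
  rw [← hk] at l1 l4 l5 l6 l7 l10 hE
  obtain ⟨L, hL⟩ : ∃ L, L = Real.log Y := ⟨_, rfl⟩
  obtain ⟨M, hM⟩ : ∃ M, M = F₁ * Y := ⟨_, rfl⟩
  obtain ⟨L', hL'⟩ : ∃ L', L' = Real.log M := ⟨_, rfl⟩
  rw [← hM] at l3 l6 l7 l8 l9
  rw [← hL'] at l3 l6 l7 l8 l9
  rw [← hL] at l2 l4 l5 l8 l9 ⊢
  have hK1r : (0 : ℝ) ≤ K1 := Nat.cast_nonneg _
  have hk14 : (14 : ℝ) ≤ k := by linarith
  have hk0 : (0 : ℝ) < k := by linarith
  have hkK1 : K1 ≤ k := by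
    have : (K1 : ℝ) ≤ k := by linarith
    exact_mod_cast this
  have hYM : Y ≤ M := by rw [hM]; exact Nat.le_mul_of_pos_left _ (by omega)
  have hMr : (0 : ℝ) < M := by exact_mod_cast (by omega : 0 < M)
  have hYr : (0 : ℝ) < Y := by exact_mod_cast (by omega : 0 < Y)
  have hf1 : ∀ n, |f n| ≤ 1 := by
    intro n
    have := hf.1 n
    rwa [Complex.norm_real, Real.norm_eq_abs] at this
  have hsup := hN3 M (by omega)
  have hgen' := hgen k hkK1 Y (by omega) s p φ hE σ hσ X (by omega) f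
  rw [← hM] at hgen'
  have hmain := hgen' (by
    rw [pow_zero, mul_one]
    calc ∑ n ∈ Icc 1 M, f n ^ 2 ≤ ∑ _n ∈ Icc 1 M, (1 : ℝ) := by
          apply sum_le_sum
          intro n _
          rw [← sq_abs]
          exact pow_le_one₀ (abs_nonneg _) (hf1 n)
      _ = M := by rw [sum_const, Nat.card_Icc, Nat.add_sub_cancel, nsmul_eq_mul, mul_one]) (by
      intro α
      refine (hsup α).trans ?_
      apply div_le_div_of_nonneg_left hMr.le (by positivity)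
      rw [← hL', pow_mul]
      exact pow_le_pow_left₀ hk0.le l7 U0) G hG
  have hfin : (Y : ℝ) / (k : ℝ) ^ (2 * U + 1) ≤ Y / L ^ U := by
    apply div_le_div_of_nonneg_left hYr.le (by positivity)
    calc L ^ U ≤ (k : ℝ) ^ (2 * U) := by
          rw [pow_mul]
          exact pow_le_pow_left₀ (by linarith) l4 U
      _ ≤ (k : ℝ) ^ (2 * U + 1) := pow_le_pow_right₀ (by linarith) (by omega)
  refine le_trans (le_of_eq ?_) (hmain.trans hfin)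
  apply sum_congr rfl
  intro c hc
  congr 1
  apply sum_congr rfl
  intro i hi
  congr 2
  rw [mem_Icc] at hc
  have hx : φ i + σ * (c : ℤ) ≤ M := by
    have h1 := (abs_le.1 (hE.size i hi)).2
    have h2 : ((c : ℕ) : ℤ) ≤ (Y : ℤ) := by exact_mod_cast hc.2.trans hX
    have h3 : σ * (c : ℤ) ≤ c := by rcases hσ with h | h <;> rw [h] <;> omega
    rw [hM, hF₁]
    push_cast at h1 h2 ⊢
    have : (0 : ℤ) ≤ (Y : ℤ) := Int.natCast_nonneg _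
    linarith
  rw [cut_fx f _ _ hx]

end Pool.Agent.HP27.EN
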