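import Pool.Agent.HP27.EN.B

set_option autoImplicit false

/-! Laws with small additive energy. -/

namespace Pool.Agent.HP27.EN
open Finset
open Pool.Agent.H807R2.Dav
open Pool.Agent.H373R2.T7
open Pool.Agent.W93.DG
open Pool.Agent.TH872.Sq
open Pool.Agent.HP25.OS (dual logs marg corr liF_abs)
open Pool.Agent.N469.PT (OneLaw)
open Pool.Agent.W93.LM (Nice)
open Pool.Agent.W93.TD (HLs avg_w total_w)

/-- the class of the laws -/
def EL (q F W N : ℕ) (Ω : Finset ℕ) (p : ℕ → ℝ) : Prop :=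
  (∀ v, 0 ≤ p v) ∧ Em q (Nat.log 2 N) W F N Ω p (fun v => (v : ℤ))

theorem oneLaw_EL (q : ℕ) (hq : 1 ≤ q) (F W U : ℕ) : OneLaw (EL q F W) 1 0 U := by
  obtain ⟨B, hB⟩ := one_vm (ι := ℕ) q hq F W U
  refine ⟨F, B, fun E => ?_⟩
  obtain ⟨K₀, hK₀⟩ := hB E
  obtain ⟨K1, hK1⟩ := logs 1 1 (W + 4 * q * U + 1) le_rfl le_rfl 1
  refine ⟨K₀ + K1 + 1, fun N hN Ω p hL cc hcc => ?_⟩
  obtain ⟨hp0, hE⟩ := hL
  have hcc0 : cc = 0 := by omega
  subst hcc0
  obtain ⟨l1, l2, -, l4, l5, -, -, -, -, l10⟩ := hK1 N (by omega) N (by omega) (by omega)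
  have hE' := hE
  obtain ⟨k, hk⟩ : ∃ k, k = Nat.log 2 N := ⟨_, rfl⟩
  obtain ⟨L, hL⟩ : ∃ L, L = Real.log N := ⟨_, rfl⟩
  rw [← hk] at l1 l4 l5 l10 hE
  rw [← hL] at l2 l4 l5 ⊢
  have hk1 : (1 : ℝ) ≤ k := by linarith
  have hk0 : (0 : ℝ) < k := by linarith
  have hY0 : (0 : ℝ) < N := by exact_mod_cast (by omega : 0 < N)
  refine ⟨fun v _ => hp0 v, hE.sum, ?_, ?_, ?_⟩
  · intro v hv
    have h1 := atom hE ((v : ℕ) : ℤ)
    have h2 : ∑ i ∈ Ω.filter (fun i => ((i : ℕ) : ℤ) = ((v : ℕ) : ℤ)), p i = p v := by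
      have h3 : Ω.filter (fun i => ((i : ℕ) : ℤ) = ((v : ℕ) : ℤ)) = {v} := by
        ext i
        simp only [mem_filter, Nat.cast_inj, mem_singleton]
        constructor
        · exact fun h => h.2
        · rintro rfl
          exact ⟨hv, rfl⟩
      rw [h3, sum_singleton]
    rw [h2] at h1
    have h3 : p v ^ (2 * q) ≤ (1 / L ^ U) ^ (2 * q) := by
      have hLU : (0 : ℝ) < L ^ U := by positivity
      rw [div_pow, one_pow, le_div_iff₀ (by positivity)]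
      have h4 : (k : ℝ) ^ (W + 4 * q * U + 1) ≤ N := by exact_mod_cast l10
      have h5 : (L ^ U) ^ (2 * q) ≤ (k : ℝ) ^ (4 * q * U) := by
        calc (L ^ U) ^ (2 * q) ≤ (((k : ℝ) ^ 2) ^ U) ^ (2 * q) :=
              pow_le_pow_left₀ (by positivity) (pow_le_pow_left₀ (by linarith) l4 U) _
          _ = _ := by rw [← pow_mul, ← pow_mul]; congr 1; ring
      have h6 : (p v ^ (2 * q) * (L ^ U) ^ (2 * q)) * N ≤ 1 * N := by
        calc (p v ^ (2 * q) * (L ^ U) ^ (2 * q)) * N = (p v ^ (2 * q) * N) * (L ^ U) ^ (2 * q) := by ring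
          _ ≤ ((k : ℝ) ^ W) * (k : ℝ) ^ (4 * q * U) := by
              apply mul_le_mul h1 h5 (by positivity) (by positivity)
          _ ≤ (k : ℝ) ^ (W + 4 * q * U + 1) := by
              rw [← pow_add]
              exact pow_le_pow_right₀ hk1 (by omega)
          _ ≤ 1 * N := by rw [one_mul]; exact h4
      exact le_of_mul_le_mul_right h6 hY0
    exact (pow_le_pow_iff_left₀ (hp0 v) (by positivity) (by omega : 2 * q ≠ 0)).1 h3
  · intro v hv
    have h1 := hE.size v hv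
    rw [abs_of_nonneg (Int.natCast_nonneg _)] at h1
    have h2 : v ≤ F * N := by exact_mod_cast h1
    omega
  · intro z hz1 hz2 Kc hKc G hG
    have h2 := dual (s := Ω) (p := p) N (N / L ^ U) (fun i n => lamI ((n : ℤ) + ((0 + 1 * i : ℕ) : ℤ)) -
      lamzI z ((n : ℤ) + ((0 + 1 * i : ℕ) : ℤ))) (fun G' hG' => by
        have h3 := hK₀ N (by omega) Ω p (fun v => (v : ℤ)) hE' z (by rw [← hL]; exact hz1) (by rw [← hL]; exact hz2) N le_rfl
          1 (Or.inl rfl) G' hG'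
        rw [← hL] at h3
        refine le_trans (le_of_eq ?_) h3
        apply sum_congr rfl
        intro c _
        congr 1
        apply sum_congr rfl
        intro i _
        have e1 : (c : ℤ) + ((0 + 1 * i : ℕ) : ℤ) = ((i : ℕ) : ℤ) + 1 * (c : ℤ) := by
          push_cast
          ring
        rw [e1]) Kc hKc.le G hG
    exact h2

/-- one random shift of a nice function, arbitrary coefficients -/
theorem el_nice (q : ℕ) (hq : 1 ≤ q) (F W U : ℕ) (f : ℕ → ℝ)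
    (hf : Nice (fun n => ((f n : ℝ) : ℂ))) : ∃ N₀ : ℕ, ∀ N : ℕ, N₀ ≤ N → ∀ (Ω : Finset ℕ) (p : ℕ → ℝ), EL q F W N Ω p →
    ∀ Kc : ℝ, 0 ≤ Kc → ∀ G : ℕ → ℝ, (∀ n ∈ Icc 1 N, |G n| ≤ Kc) →
    ∑ v ∈ Ω, p v * |∑ n ∈ Icc 1 N, G n * f (n + v)| ≤ Kc * (N / Real.log N ^ U) := by
  obtain ⟨K₀, hK₀⟩ := one_nice (ι := ℕ) q hq f hf F W U
  refine ⟨K₀ + 1, fun N hN Ω p hL Kc hKc G hG => ?_⟩
  obtain ⟨hp0, hE⟩ := hL
  exact dual (s := Ω) (p := p) N (N / Real.log N ^ U) (fun i n => f (n + i)) (fun G' hG' => by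
    have h3 := hK₀ N (by omega) Ω p (fun v => (v : ℤ)) hE N le_rfl 1 (Or.inl rfl) G' hG'
    refine le_trans (le_of_eq ?_) h3
    apply sum_congr rfl
    intro c hc
    rw [mem_Icc] at hc
    congr 1
    apply sum_congr rfl
    intro i _
    have e1 : ((i : ℕ) : ℤ) + 1 * (c : ℤ) = ((c + i : ℕ) : ℤ) := by
      push_cast
      ring
    rw [e1]
    unfold fx
    rw [if_pos (by exact_mod_cast (by omega : 1 ≤ c + i)), Int.toNat_natCast]) Kc hKc G hG

lemma el_law {q F W N : ℕ} {Ω : Finset ℕ} {p : ℕ → ℝ} (h : EL q F W N Ω p) :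
    (∀ v, 0 ≤ p v) ∧ ∑ v ∈ Ω, p v = 1 ∧ ∀ v ∈ Ω, v ≤ F * N := by
  refine ⟨h.1, h.2.sum, fun v hv => ?_⟩
  have h1 := h.2.size v hv
  rw [abs_of_nonneg (Int.natCast_nonneg _)] at h1
  exact_mod_cast h1

end Pool.Agent.HP27.EN
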