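import Pool.Agent.HP27.EN.D

set_option autoImplicit false

/-! From small collision probabilities to small moments. -/

namespace Pool.Agent.HP27.EN
open Finset
open Pool.Agent.H807R2.Dav
open Pool.Agent.H373R2.T7
open Pool.Agent.W93.DG
open Pool.Agent.TH872.Sq
open Pool.Agent.HP25.OS (logs pow_tuples)

open Classical in
/-- a given difference has at most the probability of the difference zero -/
lemma corr_le {α : Type} (S : Finset α) (P : α → ℝ) (hP : ∀ a ∈ S, 0 ≤ P a) (f : α → ℤ) (d : ℤ) :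
    ∑ a ∈ S, ∑ b ∈ S, (if f a - f b = d then P a * P b else 0) ≤
      ∑ a ∈ S, ∑ b ∈ S, (if f a = f b then P a * P b else 0) := by
  obtain ⟨r, hr⟩ : ∃ r : ℤ → ℝ, ∀ j, r j = ∑ a ∈ S.filter (fun a => f a = j), P a := ⟨_, fun _ => rfl⟩
  obtain ⟨J, hJ⟩ : ∃ J, J = S.image f := ⟨_, rfl⟩
  have hr0 : ∀ j, j ∉ J → r j = 0 := by
    intro j hj
    rw [hr, filter_eq_empty_iff.2, sum_empty]
    intro a ha h
    exact hj (by rw [hJ, mem_image]; exact ⟨a, ha, h⟩)
  have h1 : ∀ e : ℤ, ∑ a ∈ S, ∑ b ∈ S, (if f b = f a - e then P a * P b else 0) = ∑ j ∈ J, r j * r (j - e) := by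
    intro e
    have g1 : ∀ a ∈ S, ∑ b ∈ S, (if f b = f a - e then P a * P b else 0) = P a * r (f a - e) := by
      intro a _
      rw [hr, mul_sum, sum_filter]
    rw [sum_congr rfl g1, hJ, ← sum_fiberwise_of_maps_to (s := S) (t := S.image f) (g := f) (fun a ha => mem_image_of_mem f ha)]
    apply sum_congr rfl
    intro j _
    rw [hr j, sum_mul]
    apply sum_congr rfl
    intro a ha
    rw [(mem_filter.1 ha).2]
  have e1 : ∑ a ∈ S, ∑ b ∈ S, (if f a - f b = d then P a * P b else 0) = ∑ j ∈ J, r j * r (j - d) := by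
    rw [← h1 d]
    apply sum_congr rfl
    intro a _
    apply sum_congr rfl
    intro b _
    have : f a - f b = d ↔ f b = f a - d := by omega
    simp only [this]
  have e2 : ∑ a ∈ S, ∑ b ∈ S, (if f a = f b then P a * P b else 0) = ∑ j ∈ J, r j * r j := by
    have h2 := h1 0
    simp only [sub_zero] at h2
    rw [← h2]
    apply sum_congr rfl
    intro a _
    apply sum_congr rfl
    intro b _
    simp only [eq_comm]
  rw [e1, e2]
  have e3 : ∑ j ∈ J, r (j - d) ^ 2 ≤ ∑ j ∈ J, r j ^ 2 := by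
    rw [← sum_image (f := fun j => r j ^ 2) (g := fun j : ℤ => j - d) (s := J) (by
      intro a _ b _ h
      simpa using h)]
    calc ∑ j ∈ J.image (fun j : ℤ => j - d), r j ^ 2 ≤ ∑ j ∈ J ∪ J.image (fun j : ℤ => j - d), r j ^ 2 :=
          sum_le_sum_of_subset_of_nonneg subset_union_right (fun _ _ _ => sq_nonneg _)
      _ = ∑ j ∈ J, r j ^ 2 := by
          symm
          apply sum_subset subset_union_left
          intro j _ hj
          rw [hr0 j hj]
          ring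
  calc ∑ j ∈ J, r j * r (j - d) ≤ ∑ j ∈ J, (r j ^ 2 + r (j - d) ^ 2) / 2 := by
        apply sum_le_sum
        intro j _
        nlinarith [sq_nonneg (r j - r (j - d))]
    _ = (∑ j ∈ J, r j ^ 2 + ∑ j ∈ J, r (j - d) ^ 2) / 2 := by rw [← sum_div, sum_add_distrib]
    _ ≤ (∑ j ∈ J, r j ^ 2 + ∑ j ∈ J, r j ^ 2) / 2 := by linarith
    _ = ∑ j ∈ J, r j * r j := by
        rw [add_self_div_two]
        apply sum_congr rfl
        intro j _
        ring

open Classical in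
/-- the mass of the pairs with close values is controlled by the one at distance `1` -/
lemma near_count {α : Type} (S : Finset α) (P : α → ℝ) (hP : ∀ a ∈ S, 0 ≤ P a) (G : α → ℝ) (R : ℝ) (hR : 0 ≤ R) :
    ∑ a ∈ S, ∑ b ∈ S, (if |G a - G b| ≤ R then P a * P b else 0) ≤
      (2 * R + 3) * ∑ a ∈ S, ∑ b ∈ S, (if |G a - G b| ≤ 1 then P a * P b else 0) := by
  obtain ⟨K, hK⟩ : ∃ K : ℕ, K = ⌈R⌉₊ := ⟨_, rfl⟩
  have hK1 : R ≤ K := by rw [hK]; exact Nat.le_ceil R
  have hK2 : (K : ℝ) ≤ R + 1 := by rw [hK]; exact (Nat.ceil_lt_add_one hR).le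
  have h1 : ∑ a ∈ S, ∑ b ∈ S, (if |G a - G b| ≤ R then P a * P b else 0) ≤
      ∑ a ∈ S, ∑ b ∈ S, ∑ d ∈ Icc (-(K : ℤ)) K, (if ⌊G a⌋ - ⌊G b⌋ = d then P a * P b else 0) := by
    apply sum_le_sum
    intro a ha
    apply sum_le_sum
    intro b hb
    have hab := mul_nonneg (hP a ha) (hP b hb)
    rw [sum_ite_eq]
    split_ifs with h h'
    · exact le_rfl
    · exfalso
      apply h'
      rw [mem_Icc]
      have g1 := abs_le.1 h
      have f1 := Int.floor_le (G a)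
      have f2 := Int.lt_floor_add_one (G a)
      have f3 := Int.floor_le (G b)
      have f4 := Int.lt_floor_add_one (G b)
      constructor
      · have : (-(K : ℝ)) - 1 < ((⌊G a⌋ - ⌊G b⌋ : ℤ) : ℝ) := by
          push_cast
          linarith [g1.1]
        have h2 : -(K : ℤ) - 1 < ⌊G a⌋ - ⌊G b⌋ := by exact_mod_cast this
        omega
      · have : ((⌊G a⌋ - ⌊G b⌋ : ℤ) : ℝ) < (K : ℝ) + 1 := by
          push_cast
          linarith [g1.2]
        have h2 : ⌊G a⌋ - ⌊G b⌋ < (K : ℤ) + 1 := by exact_mod_cast this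
        omega
    · exact hab
    · exact le_rfl
  have h2 : ∑ a ∈ S, ∑ b ∈ S, ∑ d ∈ Icc (-(K : ℤ)) K, (if ⌊G a⌋ - ⌊G b⌋ = d then P a * P b else 0) =
      ∑ d ∈ Icc (-(K : ℤ)) K, ∑ a ∈ S, ∑ b ∈ S, (if ⌊G a⌋ - ⌊G b⌋ = d then P a * P b else 0) := by
    rw [sum_congr rfl (fun a _ => sum_comm), sum_comm]
  have h3 : ∑ a ∈ S, ∑ b ∈ S, (if ⌊G a⌋ = ⌊G b⌋ then P a * P b else 0) ≤
      ∑ a ∈ S, ∑ b ∈ S, (if |G a - G b| ≤ 1 then P a * P b else 0) := by
    apply sum_le_sum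
    intro a ha
    apply sum_le_sum
    intro b hb
    have hab := mul_nonneg (hP a ha) (hP b hb)
    split_ifs with h h'
    · exact le_rfl
    · exfalso
      apply h'
      have f1 := Int.floor_le (G a)
      have f2 := Int.lt_floor_add_one (G a)
      have f3 := Int.floor_le (G b)
      have f4 := Int.lt_floor_add_one (G b)
      rw [h] at f1 f2
      rw [abs_le]
      constructor <;> linarith
    · exact hab
    · exact le_rfl
  have h4 : 0 ≤ ∑ a ∈ S, ∑ b ∈ S, (if |G a - G b| ≤ 1 then P a * P b else 0) := by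
    apply sum_nonneg
    intro a ha
    apply sum_nonneg
    intro b hb
    split_ifs
    · exact mul_nonneg (hP a ha) (hP b hb)
    · exact le_rfl
  rw [h2] at h1
  calc ∑ a ∈ S, ∑ b ∈ S, (if |G a - G b| ≤ R then P a * P b else 0) ≤
      ∑ d ∈ Icc (-(K : ℤ)) K, ∑ a ∈ S, ∑ b ∈ S, (if ⌊G a⌋ - ⌊G b⌋ = d then P a * P b else 0) := h1
    _ ≤ ∑ _d ∈ Icc (-(K : ℤ)) K, ∑ a ∈ S, ∑ b ∈ S, (if |G a - G b| ≤ 1 then P a * P b else 0) := by
        apply sum_le_sum
        intro d _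
        exact (corr_le S P hP (fun a => ⌊G a⌋) d).trans h3
    _ = (2 * K + 1) * ∑ a ∈ S, ∑ b ∈ S, (if |G a - G b| ≤ 1 then P a * P b else 0) := by
        rw [sum_const, nsmul_eq_mul, Int.card_Icc]
        congr 1
        have : ((K : ℤ) + 1 - -(K : ℤ)).toNat = 2 * K + 1 := by omega
        rw [this]
        push_cast
        ring
    _ ≤ _ := mul_le_mul_of_nonneg_right (by linarith) h4

open Classical in
/-- **Moments.** -/
theorem moment_mass {ι : Type} (q : ℕ) (s : Finset ι) (p : ι → ℝ) (hp : ∀ i ∈ s, 0 ≤ p i) (g : ι → ℝ) (φ : ι → ℤ) (Δ : ℝ)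
    (hφ : ∀ i ∈ s, |(φ i : ℝ) - g i| ≤ Δ) (R : ℕ) (hR : ∀ i ∈ s, |φ i| ≤ R) (M' : ℕ) (hM' : 2 * q * R < M') :
    ∑ t ∈ range M', ‖∑ i ∈ s, ((p i : ℝ) : ℂ) * ee ((t : ℝ) * ((φ i : ℝ) / M'))‖ ^ (2 * q) ≤
      M' * ∑ a ∈ Fintype.piFinset (fun _ : Fin q => s), ∑ b ∈ Fintype.piFinset (fun _ : Fin q => s),
        (if |∑ j, g (a j) - ∑ j, g (b j)| ≤ 2 * q * Δ then (∏ j, p (a j)) * ∏ j, p (b j) else 0) := by
  obtain ⟨S, hS⟩ : ∃ S : Finset (Fin q → ι), S = Fintype.piFinset (fun _ : Fin q => s) := ⟨_, rfl⟩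
  obtain ⟨P, hP⟩ : ∃ P : (Fin q → ι) → ℝ, ∀ v, P v = ∏ j, p (v j) := ⟨_, fun _ => rfl⟩
  obtain ⟨G, hG⟩ : ∃ G : (Fin q → ι) → ℝ, ∀ v, G v = ∑ j, g (v j) := ⟨_, fun _ => rfl⟩
  obtain ⟨Φ, hΦ⟩ : ∃ Φ : (Fin q → ι) → ℤ, ∀ v, Φ v = ∑ j, φ (v j) := ⟨_, fun _ => rfl⟩
  simp only [← hP, ← hG, ← hS]
  have hmem : ∀ v ∈ S, ∀ j, v j ∈ s := by
    intro v hv j
    rw [hS, Fintype.mem_piFinset] at hv
    exact hv j
  have hP0 : ∀ v ∈ S, 0 ≤ P v := by
    intro v hv
    rw [hP]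
    exact prod_nonneg fun j _ => hp _ (hmem v hv j)
  have hM0 : 1 ≤ M' := by omega
  have e2 : ∑ t ∈ range M', ‖∑ i ∈ s, ((p i : ℝ) : ℂ) * ee ((t : ℝ) * ((φ i : ℝ) / M'))‖ ^ (2 * q) =
      ∑ t ∈ range M', ‖∑ v ∈ S, ((P v : ℝ) : ℂ) * ee ((t : ℝ) * ((Φ v : ℝ) / M'))‖ ^ 2 := by
    apply sum_congr rfl
    intro t _
    have h1 := pow_tuples q s (fun i => ((p i : ℝ) : ℂ)) (fun i => (φ i : ℝ)) ((t : ℝ) / M')
    rw [← hS] at h1
    have h2 : ∑ i ∈ s, ((p i : ℝ) : ℂ) * ee ((t : ℝ) * ((φ i : ℝ) / M')) = ∑ i ∈ s, ((p i : ℝ) : ℂ) * ee ((t : ℝ) / M' * (φ i : ℝ)) := by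
      apply sum_congr rfl
      intro i _
      congr 2
      ring
    have h3 : ‖∑ i ∈ s, ((p i : ℝ) : ℂ) * ee ((t : ℝ) / M' * (φ i : ℝ))‖ ^ (2 * q) =
        ‖(∑ i ∈ s, ((p i : ℝ) : ℂ) * ee ((t : ℝ) / M' * (φ i : ℝ))) ^ q‖ ^ 2 := by
      rw [norm_pow, ← pow_mul, mul_comm]
    rw [h2, h3, h1]
    congr 2
    apply sum_congr rfl
    intro v _
    rw [hP, hΦ]
    push_cast
    congr 2
    ring
  have e3 : ∑ t ∈ range M', ‖∑ v ∈ S, ((P v : ℝ) : ℂ) * ee ((t : ℝ) * ((Φ v : ℝ) / M'))‖ ^ 2 =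
      M' * ∑ a ∈ S, ∑ b ∈ S, (if (M' : ℤ) ∣ Φ a - Φ b then P a * P b else 0) := by
    have h1 := sq_expand S (fun v => ((P v : ℝ) : ℂ)) Φ M' hM0
    apply Complex.ofReal_injective
    rw [h1]
    push_cast
    rw [mul_sum]
    apply sum_congr rfl
    intro a _
    rw [mul_sum]
    apply sum_congr rfl
    intro b _
    rw [Complex.conj_ofReal]
    split_ifs
    · push_cast; ring
    · push_cast; ring
  have e4 : ∑ a ∈ S, ∑ b ∈ S, (if (M' : ℤ) ∣ Φ a - Φ b then P a * P b else 0) ≤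
      ∑ a ∈ S, ∑ b ∈ S, (if |G a - G b| ≤ 2 * q * Δ then P a * P b else 0) := by
    apply sum_le_sum
    intro a ha
    apply sum_le_sum
    intro b hb
    have hab := mul_nonneg (hP0 a ha) (hP0 b hb)
    have hcl : ∀ v ∈ S, |(Φ v : ℝ) - G v| ≤ q * Δ := by
      intro v hv
      rw [hΦ, hG]
      push_cast
      rw [← sum_sub_distrib]
      refine (abs_sum_le_sum_abs _ _).trans ?_
      refine (sum_le_sum fun j _ => hφ _ (hmem v hv j)).trans (le_of_eq ?_)
      rw [sum_const, card_univ, Fintype.card_fin, nsmul_eq_mul]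
    have hsz : ∀ v ∈ S, |Φ v| ≤ q * R := by
      intro v hv
      rw [hΦ]
      refine (abs_sum_le_sum_abs _ _).trans ?_
      refine (sum_le_sum fun j _ => hR _ (hmem v hv j)).trans (le_of_eq ?_)
      rw [sum_const, card_univ, Fintype.card_fin, nsmul_eq_mul]
    split_ifs with h h'
    · exact le_rfl
    · exfalso
      apply h'
      have h0 : Φ a - Φ b = 0 := by
        apply Int.eq_zero_of_abs_lt_dvd h
        have g1 := hsz a ha
        have g2 := hsz b hb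
        have g3 : |Φ a - Φ b| ≤ |Φ a| + |Φ b| := abs_sub _ _
        have g4 : ((2 * q * R : ℕ) : ℤ) < M' := by exact_mod_cast hM'
        push_cast at g4
        linarith
      have h0' : (Φ a : ℝ) - Φ b = 0 := by exact_mod_cast h0
      have g1 := abs_le.1 (hcl a ha)
      have g2 := abs_le.1 (hcl b hb)
      rw [abs_le]
      constructor <;> linarith [g1.1, g1.2, g2.1, g2.2]
    · exact hab
    · exact le_rfl
  rw [e2, e3]
  exact mul_le_mul_of_nonneg_left e4 (Nat.cast_nonneg _)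

open Classical in
/-- the image of a product law under a product map -/
lemma push {r : ℕ} {ι : Fin r → Type} [∀ i, Fintype (ι i)] (p : ∀ i, ι i → ℝ) (φ : ∀ i, ι i → ℕ) (p' : Fin r → ℕ → ℝ)
    (hp' : ∀ i v, p' i v = ∑ x ∈ univ.filter (fun x : ι i => φ i x = v), p i x) (H : (Fin r → ℕ) → ℝ) :
    ∑ m ∈ Fintype.piFinset (fun i => univ.image (φ i)), H m * ∏ i, p' i (m i) =
      ∑ x : (∀ i, ι i), H (fun i => φ i (x i)) * ∏ i, p i (x i) := by
  rw [← sum_fiberwise_of_maps_to (s := (univ : Finset (∀ i, ι i))) (t := Fintype.piFinset (fun i => univ.image (φ i)))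
    (g := fun x i => φ i (x i)) (fun x _ => by
      rw [Fintype.mem_piFinset]
      intro i
      exact mem_image_of_mem _ (mem_univ _))]
  apply sum_congr rfl
  intro m _
  have h1 : ∏ i, p' i (m i) = ∑ x ∈ Fintype.piFinset (fun i => univ.filter (fun x : ι i => φ i x = m i)), ∏ i, p i (x i) := by
    rw [← prod_univ_sum]
    apply prod_congr rfl
    intro i _
    rw [hp']
  have h2 : (Fintype.piFinset (fun i => univ.filter (fun x : ι i => φ i x = m i))) =
      univ.filter (fun x : (∀ i, ι i) => (fun i => φ i (x i)) = m) := by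
    ext x
    simp only [Fintype.mem_piFinset, mem_filter, mem_univ, true_and, funext_iff]
  rw [h1, h2, mul_sum]
  apply sum_congr rfl
  intro x hx
  rw [(mem_filter.1 hx).2]

end Pool.Agent.HP27.EN
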