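import Pool.Agent.HP27.EN.E

set_option autoImplicit false

/-! All integers close to independent random real numbers with small collision probabilities. -/

namespace Pool.Agent.HP27.EN
open Finset
open Pool.Agent.H807R2.Dav
open Pool.Agent.H373R2.T7
open Pool.Agent.W93.DG
open Pool.Agent.TH872.Sq
open Pool.Agent.HP25.OS (logs pow_tuples)

open Classical in
/-- The probability that `|X₁ + ... + X_q - X'₁ - ... - X'_q| ≤ 1`, if the `X_j` and `X'_j` are independent random numbers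
which take the value `a x` with the probability `p x`. -/
noncomputable def coll {ι : Type} [Fintype ι] (q : ℕ) (p a : ι → ℝ) : ℝ :=
  ∑ x : Fin q → ι, ∑ y : Fin q → ι, if |∑ j, a (x j) - ∑ j, a (y j)| ≤ 1 then (∏ j, p (x j)) * ∏ j, p (y j) else 0

open Classical in
theorem near_fam (r : ℕ) (q : Fin r → ℕ) (hq : ∀ i, 1 ≤ q i) (T κ W U : ℕ) :
    ∃ (F W' U' : ℕ), U ≤ U' ∧ ∃ N₁ : ℕ, ∀ N : ℕ, N₁ ≤ N → ∀ P : (Fin r → ℕ) → Prop,
    (∀ (Ω : Fin r → Finset ℕ) (p : Fin r → ℕ → ℝ), (∀ i, EL (q i) F W' N (Ω i) (p i)) →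
      ∑ m ∈ Fintype.piFinset Ω, (if P m then ∏ i, p i (m i) else 0) ≤ 1 / Real.log N ^ U') →
    ∀ (ι : Fin r → Type) [∀ i, Fintype (ι i)] (p a : ∀ i, ι i → ℝ), (∀ i x, 0 ≤ p i x) → (∀ i, ∑ x, p i x = 1) →
    (∀ i x, -Real.log N ^ W ≤ a i x ∧ a i x ≤ T * N) → (∀ i, N * coll (q i) (p i) (a i) ≤ Real.log N ^ κ) →
    ∑ x : (∀ i, ι i), (if ∃ h : Fin r → ℕ, (∀ i, |(h i : ℝ) - a i (x i)| ≤ Real.log N ^ W) ∧ P h then ∏ i, p i (x i) else 0) ≤
      1 / Real.log N ^ U := by
  obtain ⟨Q, hQ⟩ : ∃ Q, Q = ∑ i, q i := ⟨_, rfl⟩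
  have hQi : ∀ i, q i ≤ Q := fun i => by rw [hQ]; exact single_le_sum (fun _ _ => Nat.zero_le _) (mem_univ i)
  refine ⟨T + 2, 2 * W + 2 * κ + 2, U + (W + 1) * r, by omega, ?_⟩
  obtain ⟨K₀, hK₀⟩ := logs 1 1 (2 * W + 2) le_rfl le_rfl (64 + 16 * Q)
  obtain ⟨N2, hN2⟩ := exists_nat_ge (Real.exp 8)
  refine ⟨K₀ + N2 + 1, fun N hN P hP ι _ p a hp0 hp1 har hcoll => ?_⟩
  obtain ⟨L, hL⟩ : ∃ L, L = Real.log N := ⟨_, rfl⟩
  have hN0 : (0 : ℝ) < N := by exact_mod_cast (by omega : 0 < N)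
  have hL8 : 8 ≤ L := by
    rw [hL, Real.le_log_iff_exp_le hN0]
    refine hN2.trans ?_
    exact_mod_cast (by omega : N2 ≤ N)
  rw [← hL] at har hcoll hP ⊢
  obtain ⟨l1, -, -, l4, -, -, -, -, -, l10⟩ := hK₀ N (by omega) N (by omega) (by omega)
  obtain ⟨kk, hkk⟩ : ∃ kk, kk = Nat.log 2 N := ⟨_, rfl⟩
  rw [← hkk] at l1 l4 l10
  rw [← hL] at l4
  have hkk1 : (64 : ℝ) ≤ kk := by
    have : (0 : ℝ) ≤ 16 * Q := by positivity
    linarith
  -- the offsets
  obtain ⟨H, hH⟩ : ∃ H : ℕ, H = ⌈L ^ W⌉₊ + 1 := ⟨_, rfl⟩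
  have hLW : 1 ≤ L ^ W := one_le_pow₀ (by linarith)
  have hH1 : L ^ W + 1 ≤ H := by
    rw [hH]
    push_cast
    linarith [Nat.le_ceil (L ^ W)]
  have hH2 : (H : ℝ) ≤ L ^ W + 2 := by
    rw [hH]
    push_cast
    linarith [(Nat.ceil_lt_add_one (by positivity : 0 ≤ L ^ W)).le]
  obtain ⟨O, hO⟩ : ∃ O : Finset (Fin r → ℤ), O = Fintype.piFinset (fun _ : Fin r => Icc (-(H : ℤ)) H) := ⟨_, rfl⟩
  have hOcard : (O.card : ℝ) ≤ (L ^ (W + 1)) ^ r := by
    rw [hO, Fintype.card_piFinset, prod_const, card_univ, Fintype.card_fin]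
    push_cast
    apply pow_le_pow_left₀ (by positivity)
    rw [Int.card_Icc]
    have h1 : ((H : ℤ) + 1 - -(H : ℤ)).toNat = 2 * H + 1 := by omega
    rw [h1, pow_succ]
    push_cast
    nlinarith
  have hg1 : L ^ W ≤ (kk : ℝ) ^ (2 * W) := by
    rw [pow_mul]
    exact pow_le_pow_left₀ (by linarith) l4 W
  have hg2 : (1 : ℝ) ≤ (kk : ℝ) ^ (2 * W) := one_le_pow₀ (by linarith)
  have hwin : (H : ℝ) + 1 ≤ (kk : ℝ) ^ (2 * W + 2) := by
    rw [pow_add]
    nlinarith
  have hHN : (H : ℝ) + 1 ≤ N := hwin.trans (by exact_mod_cast l10)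
  obtain ⟨φ, hφ⟩ : ∃ φ : (Fin r → ℤ) → ∀ i, ι i → ℕ, ∀ h i x, φ h i x = (⌊a i x⌋ + h i).toNat := ⟨_, fun _ _ _ => rfl⟩
  -- one offset
  have hone : ∀ h ∈ O, ∑ x : (∀ i, ι i), (if P (fun i => φ h i (x i)) then ∏ i, p i (x i) else 0) ≤ 1 / L ^ (U + (W + 1) * r) := by
    intro h hh
    rw [hO, Fintype.mem_piFinset] at hh
    obtain ⟨p', hp'⟩ : ∃ p' : Fin r → ℕ → ℝ, ∀ i v, p' i v = ∑ x ∈ univ.filter (fun x : ι i => φ h i x = v), p i x :=
      ⟨_, fun _ _ => rfl⟩
    have hfib : ∀ i, ∀ F : ℕ → ℂ, ∑ v ∈ univ.image (φ h i), ((p' i v : ℝ) : ℂ) * F v = ∑ x, ((p i x : ℝ) : ℂ) * F (φ h i x) := by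
      intro i F
      rw [← sum_fiberwise_of_maps_to (s := univ) (t := univ.image (φ h i)) (g := φ h i) (fun x _ => mem_image_of_mem _ (mem_univ x))]
      apply sum_congr rfl
      intro v _
      rw [hp', Complex.ofReal_sum, sum_mul]
      apply sum_congr rfl
      intro x hx
      rw [(mem_filter.1 hx).2]
    have hnear : ∀ i x, |((φ h i x : ℕ) : ℝ) - a i x| ≤ H + 1 := by
      intro i x
      obtain ⟨r1, -⟩ := har i x
      have hfl1 := Int.floor_le (a i x)
      have hfl2 := Int.lt_floor_add_one (a i x)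
      have hhi := mem_Icc.1 (hh i)
      have hh1 : -(H : ℝ) ≤ (h i : ℝ) := by exact_mod_cast hhi.1
      have hh2 : (h i : ℝ) ≤ H := by exact_mod_cast hhi.2
      rw [hφ]
      rcases le_total 0 (⌊a i x⌋ + h i) with g | g
      · have e1 : (((⌊a i x⌋ + h i).toNat : ℕ) : ℝ) = (⌊a i x⌋ : ℝ) + h i := by
          have : (((⌊a i x⌋ + h i).toNat : ℕ) : ℤ) = ⌊a i x⌋ + h i := Int.toNat_of_nonneg g
          exact_mod_cast this
        rw [e1, abs_le]
        constructor <;> linarith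
      · rw [Int.toNat_of_nonpos g, Nat.cast_zero, zero_sub, abs_neg, abs_le]
        have g' : (⌊a i x⌋ : ℝ) + h i ≤ 0 := by exact_mod_cast g
        constructor <;> linarith
    have hsize : ∀ i x, φ h i x ≤ (T + 2) * N := by
      intro i x
      obtain ⟨-, r2⟩ := har i x
      have hhi := mem_Icc.1 (hh i)
      have hh2 : (h i : ℝ) ≤ H := by exact_mod_cast hhi.2
      have hfl1 := Int.floor_le (a i x)
      have g1 : ((⌊a i x⌋ + h i : ℤ) : ℝ) ≤ (((T + 2) * N : ℕ) : ℝ) := by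
        push_cast
        nlinarith
      have g2 : (⌊a i x⌋ + h i : ℤ) ≤ (((T + 2) * N : ℕ) : ℤ) := by exact_mod_cast g1
      rw [hφ, Int.toNat_le]
      exact g2
    have h1 := hP (fun i => univ.image (φ h i)) p' (fun i => by
        have hp'0 : ∀ v, 0 ≤ p' i v := fun v => by
          rw [hp']
          exact sum_nonneg fun x _ => hp0 i x
        refine ⟨hp'0, fun v _ => hp'0 v, ?_, ?_, ?_⟩
        · have h2 := hfib i (fun _ => 1)
          simp only [mul_one] at h2
          rw [← Complex.ofReal_sum, ← Complex.ofReal_sum, hp1 i] at h2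
          exact_mod_cast h2
        · intro v hv
          rw [mem_image] at hv
          obtain ⟨x, -, rfl⟩ := hv
          rw [abs_of_nonneg (Int.natCast_nonneg _)]
          exact_mod_cast hsize i x
        · intro M hM
          have e1 : ∑ t ∈ range M, ‖∑ v ∈ univ.image (φ h i), ((p' i v : ℝ) : ℂ) * ee ((t : ℝ) * ((((v : ℕ) : ℤ) : ℝ) / M))‖ ^ (2 * q i) =
              ∑ t ∈ range M, ‖∑ x, ((p i x : ℝ) : ℂ) * ee ((t : ℝ) * ((((φ h i x : ℕ) : ℤ) : ℝ) / M))‖ ^ (2 * q i) := by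
            apply sum_congr rfl
            intro t _
            rw [hfib i (fun v => ee ((t : ℝ) * ((((v : ℕ) : ℤ) : ℝ) / M)))]
          rw [e1]
          have h2 := moment_mass (q i) univ (p i) (fun x _ => hp0 i x) (a i) (fun x => ((φ h i x : ℕ) : ℤ)) (H + 1) (fun x _ => by
            push_cast
            exact hnear i x) ((T + 2) * N) (fun x _ => by
            rw [abs_of_nonneg (Int.natCast_nonneg _)]
            exact_mod_cast hsize i x) M hM
          have h3 := near_count (Fintype.piFinset (fun _ : Fin (q i) => (univ : Finset (ι i)))) (fun x => ∏ j, p i (x j))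
            (fun x _ => prod_nonneg fun j _ => hp0 i _) (fun x => ∑ j, a i (x j)) (2 * q i * (H + 1)) (by positivity)
          rw [Fintype.piFinset_univ] at h2 h3
          have h4 : ∑ x : Fin (q i) → ι i, ∑ y : Fin (q i) → ι i,
              (if |∑ j, a i (x j) - ∑ j, a i (y j)| ≤ 1 then (∏ j, p i (x j)) * ∏ j, p i (y j) else 0) = coll (q i) (p i) (a i) := rfl
          rw [h4] at h3
          have hM0 : (0 : ℝ) ≤ M := Nat.cast_nonneg _
          have hqi : (q i : ℝ) ≤ Q := by exact_mod_cast hQi i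
          have hcoll0 : 0 ≤ coll (q i) (p i) (a i) := by
            unfold coll
            apply sum_nonneg
            intro x _
            apply sum_nonneg
            intro y _
            split_ifs
            · exact mul_nonneg (prod_nonneg fun j _ => hp0 i _) (prod_nonneg fun j _ => hp0 i _)
            · exact le_rfl
          have h5 : 2 * (2 * (q i : ℝ) * (H + 1)) + 3 ≤ (kk : ℝ) ^ (2 * W + 1) := by
            rw [pow_succ]
            have g3 : 2 * (2 * (q i : ℝ) * (H + 1)) + 3 ≤ (16 * Q + 3) * L ^ W := by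
              have g4 : (H : ℝ) + 1 ≤ 4 * L ^ W := by linarith
              have g5 : (0 : ℝ) ≤ q i := Nat.cast_nonneg _
              have g6 : (q i : ℝ) * (H + 1) ≤ Q * (4 * L ^ W) := mul_le_mul hqi g4 (by positivity) (by positivity)
              nlinarith
            refine g3.trans ?_
            calc (16 * (Q : ℝ) + 3) * L ^ W ≤ kk * (kk : ℝ) ^ (2 * W) := by
                  apply mul_le_mul (by linarith) hg1 (by linarith) (by linarith)
              _ = _ := by ring
          have h6 : L ^ κ ≤ (kk : ℝ) ^ (2 * κ) := by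
            rw [pow_mul]
            exact pow_le_pow_left₀ (by linarith) l4 κ
          rw [← hkk]
          calc _ ≤ (M * ((2 * (2 * q i * (H + 1)) + 3) * coll (q i) (p i) (a i))) * N :=
                mul_le_mul_of_nonneg_right (h2.trans (mul_le_mul_of_nonneg_left h3 hM0)) hN0.le
            _ = M * ((2 * (2 * q i * (H + 1)) + 3) * (N * coll (q i) (p i) (a i))) := by ring
            _ ≤ M * ((kk : ℝ) ^ (2 * W + 1) * (kk : ℝ) ^ (2 * κ)) := by
                apply mul_le_mul_of_nonneg_left _ hM0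
                apply mul_le_mul h5 ((hcoll i).trans h6) (by positivity) (by positivity)
            _ ≤ M * (kk : ℝ) ^ (2 * W + 2 * κ + 2) := by
                apply mul_le_mul_of_nonneg_left _ hM0
                rw [← pow_add]
                exact pow_le_pow_right₀ (by linarith) (by omega))
    have h2 := push p (φ h) p' hp' (fun m => if P m then 1 else 0)
    have h3 : ∑ m ∈ Fintype.piFinset (fun i => univ.image (φ h i)), (if P m then ∏ i, p' i (m i) else 0) =
        ∑ m ∈ Fintype.piFinset (fun i => univ.image (φ h i)), (if P m then (1 : ℝ) else 0) * ∏ i, p' i (m i) := by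
      apply sum_congr rfl
      intro m _
      split_ifs
      · rw [one_mul]
      · rw [zero_mul]
    rw [h3, h2] at h1
    refine le_trans (le_of_eq ?_) h1
    apply sum_congr rfl
    intro x _
    split_ifs
    · rw [one_mul]
    · rw [zero_mul]
  -- the union
  have hpp : ∀ x : (∀ i, ι i), 0 ≤ ∏ i, p i (x i) := fun x => prod_nonneg fun i _ => hp0 i _
  have hsub : ∀ x : (∀ i, ι i), (if ∃ h : Fin r → ℕ, (∀ i, |(h i : ℝ) - a i (x i)| ≤ L ^ W) ∧ P h then ∏ i, p i (x i) else 0) ≤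
      ∑ h ∈ O, (if P (fun i => φ h i (x i)) then ∏ i, p i (x i) else 0) := by
    intro x
    have hnn : ∀ h ∈ O, 0 ≤ (if P (fun i => φ h i (x i)) then ∏ i, p i (x i) else 0) := by
      intro h _
      split_ifs
      · exact hpp x
      · exact le_rfl
    split_ifs with hex
    · obtain ⟨b, hb, hPb⟩ := hex
      have hmem : (fun i => (b i : ℤ) - ⌊a i (x i)⌋) ∈ O := by
        rw [hO, Fintype.mem_piFinset]
        intro i
        rw [mem_Icc]
        have g1 := abs_le.1 (hb i)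
        have hfl1 := Int.floor_le (a i (x i))
        have hfl2 := Int.lt_floor_add_one (a i (x i))
        constructor
        · have : (-(H : ℝ)) ≤ (((b i : ℤ) - ⌊a i (x i)⌋ : ℤ) : ℝ) := by
            push_cast
            linarith [g1.1]
          exact_mod_cast this
        · have : (((b i : ℤ) - ⌊a i (x i)⌋ : ℤ) : ℝ) ≤ (H : ℝ) := by
            push_cast
            linarith [g1.2]
          exact_mod_cast this
      refine le_trans ?_ (single_le_sum hnn hmem)
      have e1 : (fun i => φ (fun i => (b i : ℤ) - ⌊a i (x i)⌋) i (x i)) = b := by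
        funext i
        rw [hφ]
        have : ⌊a i (x i)⌋ + ((b i : ℤ) - ⌊a i (x i)⌋) = (b i : ℤ) := by ring
        rw [this, Int.toNat_natCast]
      rw [e1, if_pos hPb]
    · exact sum_nonneg hnn
  calc ∑ x : (∀ i, ι i), (if ∃ h : Fin r → ℕ, (∀ i, |(h i : ℝ) - a i (x i)| ≤ L ^ W) ∧ P h then ∏ i, p i (x i) else 0) ≤
      ∑ x : (∀ i, ι i), ∑ h ∈ O, (if P (fun i => φ h i (x i)) then ∏ i, p i (x i) else 0) := sum_le_sum fun x _ => hsub x
    _ = ∑ h ∈ O, ∑ x : (∀ i, ι i), (if P (fun i => φ h i (x i)) then ∏ i, p i (x i) else 0) := sum_comm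
    _ ≤ ∑ _h ∈ O, 1 / L ^ (U + (W + 1) * r) := sum_le_sum hone
    _ = O.card * (1 / L ^ (U + (W + 1) * r)) := by rw [sum_const, nsmul_eq_mul]
    _ ≤ (L ^ (W + 1)) ^ r * (1 / L ^ (U + (W + 1) * r)) := by
        apply mul_le_mul_of_nonneg_right hOcard (by positivity)
    _ = _ := by
        rw [← pow_mul, pow_add]
        field_simp

end Pool.Agent.HP27.EN
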